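import Pool.Agent.NH79.QT

/-!
# Pairing of vector valued forms with unary theta series; level one
-/

set_option autoImplicit false

namespace Pool.Agent.NH79.QS

open Finset
open Pool.Agent.NH1 (S_LV1 S_TH1 VV F z7)

noncomputable section

/-- the components of a vector valued form as power series -/
def Fs (c : ℕ → ZMod 7 → ℤ) (β : ZMod 7) : PowerSeries ℂ := PowerSeries.mk fun n => (c n β : ℂ)

theorem coeff_Fs (c : ℕ → ZMod 7 → ℤ) (β : ZMod 7) (n : ℕ) :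
    PowerSeries.coeff n (Fs c β) = (c n β : ℂ) := by simp [Fs]

theorem ev_Fs (c : ℕ → ZMod 7 → ℤ) (β : ZMod 7) (z : ℂ) : ev (Fs c β) z = F c β z := by
  unfold ev F
  simp only [coeff_Fs]

theorem PB_Fs {c : ℕ → ZMod 7 → ℤ} (hc : VV c) (β : ZMod 7) : PB (Fs c β) := by
  obtain ⟨C, k, h⟩ := hc.bound
  refine ⟨C, k, fun n => ?_⟩
  rw [coeff_Fs, Complex.norm_intCast]
  have := h n β
  exact_mod_cast this

/-- the transformation with the constant `κ` -/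
def TK (c : ℕ → ZMod 7 → ℤ) (κ : ℂ) : Prop := ∀ (β : ZMod 7) (z : ℂ), 0 < z.im →
    F c β (-1 / z) = κ * (-Complex.I * z) ^ ((3 : ℂ) / 2) *
      ∑ β' : ZMod 7, z7 (-(2 * β * β')) * F c β' z

theorem z7_add (x y : ZMod 7) : z7 (x + y) = z7 x * z7 y := by
  rw [z7_eq, z7_eq, z7_eq, AddChar.map_add_eq_mul]

theorem z7_sum (y : ZMod 7) : ∑ x : ZMod 7, z7 (x * y) = if y = 0 then 7 else 0 := by
  have h := AddChar.sum_mulShift (R := ZMod 7) (ψ := (E7 : AddChar (ZMod 7) ℂ)) y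
    (ZMod.isPrimitive_stdAddChar 7)
  simp_rw [z7_eq]
  rw [h]
  split_ifs
  · rw [ZMod.card]
    norm_num
  · simp

theorem z7_orth (a b : ZMod 7) : ∑ x : ZMod 7, z7 (2 * x * a) * z7 (-(2 * x * b)) = if a = b then 7 else 0 := by
  have h1 : ∀ x : ZMod 7, z7 (2 * x * a) * z7 (-(2 * x * b)) = z7 (x * (2 * (a - b))) := by
    intro x
    rw [← z7_add]
    congr 1
    ring
  simp_rw [h1]
  rw [z7_sum]
  have h2 : (2 * (a - b) = 0) ↔ a = b := by
    clear h1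
    revert a b
    decide
  simp only [h2]

theorem pair_F {c : ℕ → ZMod 7 → ℤ} {κ : ℂ} (h : TK c κ) (γ : ZMod 7) {z : ℂ} (hz : 0 < z.im) :
    ∑ β : ZMod 7, z7 (2 * β * γ) * F c β (-1 / z) =
      7 * κ * (-Complex.I * z) ^ ((3 : ℂ) / 2) * F c γ z := by
  have h1 : ∀ β : ZMod 7, z7 (2 * β * γ) * F c β (-1 / z) =
      ∑ β' : ZMod 7, κ * (-Complex.I * z) ^ ((3 : ℂ) / 2) * F c β' z *
        (z7 (2 * β * γ) * z7 (-(2 * β * β'))) := by
    intro β
    rw [h β z hz, Finset.mul_sum, Finset.mul_sum]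
    refine Finset.sum_congr rfl fun β' _ => ?_
    ring
  simp_rw [h1]
  rw [Finset.sum_comm]
  simp_rw [← Finset.mul_sum, z7_orth]
  rw [Finset.sum_eq_single γ]
  · rw [if_pos rfl]
    ring
  · intro b _ hb
    rw [if_neg (fun h => hb h.symm), mul_zero]
  · intro h
    exact absurd (mem_univ _) h

theorem ne_of_im {z : ℂ} (hz : 0 < z.im) : z ≠ 0 := fun h => by rw [h] at hz; simp at hz

theorem neg_inv_neg_inv {z : ℂ} (hz : 0 < z.im) : -1 / (-1 / z) = z := by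
  have := ne_of_im hz
  field_simp

theorem w_re {z : ℂ} (hz : 0 < z.im) : 0 < (-Complex.I * z).re := by
  simp only [Complex.mul_re, Complex.I_re, zero_mul, Complex.neg_re,
    Complex.I_im, neg_mul, one_mul, zero_sub, neg_neg]
  exact hz

theorem w_ne {z : ℂ} (hz : 0 < z.im) : -Complex.I * z ≠ 0 :=
  mul_ne_zero (neg_ne_zero.2 Complex.I_ne_zero) (ne_of_im hz)

theorem cpow_prod {z : ℂ} (hz : 0 < z.im) :
    (-Complex.I * (-1 / z)) ^ ((3 : ℂ) / 2) * (-Complex.I * z) ^ ((3 : ℂ) / 2) = 1 := by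
  have h0 := ne_of_im hz
  have h1 : -Complex.I * (-1 / z) = (-Complex.I * z)⁻¹ := by
    rw [mul_inv, inv_neg, Complex.inv_I, neg_neg]
    field_simp
  have harg : (-Complex.I * z).arg ≠ Real.pi :=
    (Complex.mem_slitPlane_iff_arg.1 (Or.inl (w_re hz))).1
  rw [h1, Complex.inv_cpow _ _ harg]
  apply inv_mul_cancel₀
  rw [Ne, Complex.cpow_eq_zero_iff]
  rintro ⟨h, _⟩
  exact w_ne hz h

theorem kappa_eq {c : ℕ → ZMod 7 → ℤ} (hc : VV c) {κ : ℂ} (h : TK c κ) (n : ℕ) (β : ZMod 7) :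
    (c n β : ℂ) = 7 * κ ^ 2 * c n (-β) := by
  have h1 : Fs c β = (7 * κ ^ 2) • Fs c (-β) := by
    refine ev_inj' (PB_Fs hc β) ((PB_Fs hc (-β)).smul _) fun z hz => ?_
    rw [ev_smul, ev_Fs, ev_Fs]
    have e1 := h β (-1 / z) (neg_inv_im hz)
    rw [neg_inv_neg_inv hz] at e1
    have e2 := pair_F h (-β) hz
    have e3 : ∑ β' : ZMod 7, z7 (-(2 * β * β')) * F c β' (-1 / z) =
        ∑ β' : ZMod 7, z7 (2 * β' * -β) * F c β' (-1 / z) := by
      refine Finset.sum_congr rfl fun x _ => ?_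
      congr 2
      ring
    rw [e1, e3, e2]
    have e4 := cpow_prod hz
    linear_combination (7 * κ ^ 2 * F c (-β) z) * e4
  have h2 := congrArg (PowerSeries.coeff n) h1
  rw [map_smul, coeff_Fs, coeff_Fs, smul_eq_mul] at h2
  exact h2

/-! ### pairing -/

/-- the pairing of the form with the theta series -/
def P (c : ℕ → ZMod 7 → ℤ) (w : ZMod 4 → ℂ) (j : ℕ) : PowerSeries ℂ :=
  ∑ β : ZMod 7, Fs c β * th^[j] (Tw w β)

theorem PB_P {c : ℕ → ZMod 7 → ℤ} (hc : VV c) (w : ZMod 4 → ℂ) (j : ℕ) : PB (P c w j) :=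
  PB.sum _ _ fun β _ => (PB_Fs hc β).mul (PB_iter (PB_Tw w β) j)

theorem ev_P {c : ℕ → ZMod 7 → ℤ} (hc : VV c) (w : ZMod 4 → ℂ) (j : ℕ) {z : ℂ} (hz : 0 < z.im) :
    ev (P c w j) z = ∑ β : ZMod 7, F c β z * ev (th^[j] (Tw w β)) z := by
  unfold P
  rw [ev_sum _ _ (fun β _ => (PB_Fs hc β).mul (PB_iter (PB_Tw w β) j)) hz]
  refine Finset.sum_congr rfl fun β _ => ?_
  rw [ev_mul (PB_Fs hc β) (PB_iter (PB_Tw w β) j) hz, ev_Fs]

/-- the factor of the transformation of the pairing -/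
def J (κ z : ℂ) : ℂ := 7 * κ * (-Complex.I * z) ^ ((3 : ℂ) / 2) * hf z

theorem J_sq (κ z : ℂ) : J κ z ^ 2 = 7 * κ ^ 2 / 4 * z ^ 4 := by
  unfold J hf
  have e1 : ((-Complex.I * z) ^ ((3 : ℂ) / 2)) ^ 2 = (-Complex.I * z) ^ 3 := by
    rw [← Complex.cpow_nat_mul]
    rw [← Complex.cpow_natCast]
    congr 1
    push_cast
    ring
  have e2 : ((-Complex.I * z / 28) ^ ((1 : ℂ) / 2)) ^ 2 = -Complex.I * z / 28 := by
    rw [← Complex.cpow_nat_mul]
    norm_num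
  calc (7 * κ * (-Complex.I * z) ^ ((3 : ℂ) / 2) * (-Complex.I * z / 28) ^ ((1 : ℂ) / 2)) ^ 2
      = 49 * κ ^ 2 * ((-Complex.I * z) ^ ((3 : ℂ) / 2)) ^ 2 * ((-Complex.I * z / 28) ^ ((1 : ℂ) / 2)) ^ 2 := by ring
    _ = 49 * κ ^ 2 * (-Complex.I * z) ^ 3 * (-Complex.I * z / 28) := by rw [e1, e2]
    _ = 7 * κ ^ 2 / 4 * (Complex.I ^ 2) ^ 2 * z ^ 4 := by ring
    _ = _ := by rw [Complex.I_sq]; ring

theorem P_trans (h1 : S_TH1) {c : ℕ → ZMod 7 → ℤ} (hc : VV c) {κ : ℂ} (h : TK c κ) (w : ZMod 4 → ℂ) (j : ℕ)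
    (h0 : ∀ i < j, P c (ft4 w) i = 0) {z : ℂ} (hz : 0 < z.im) :
    ev (P c w j) (-1 / z) = J κ z * z ^ (2 * j) * ev (P c (ft4 w) j) z := by
  obtain ⟨p, _, hp2, hp3⟩ := Tw_trans_iter h1 w j
  rw [ev_P hc w j (neg_inv_im hz)]
  have e1 : ∀ β : ZMod 7, F c β (-1 / z) * ev (th^[j] (Tw w β)) (-1 / z) =
      ∑ i ∈ range (j + 1), hf z * p i z * ∑ β' : ZMod 7, ev (th^[i] (Tw (ft4 w) β')) z *
        (z7 (2 * β * β') * F c β (-1 / z)) := by
    intro β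
    rw [hp3 β z hz, Finset.mul_sum, Finset.mul_sum]
    refine Finset.sum_congr rfl fun i _ => ?_
    rw [Finset.mul_sum, Finset.mul_sum, Finset.mul_sum, Finset.mul_sum]
    refine Finset.sum_congr rfl fun β' _ => ?_
    ring
  simp_rw [e1]
  rw [Finset.sum_comm]
  have e2 : ∀ i ∈ range (j + 1), ∑ β : ZMod 7, hf z * p i z * ∑ β' : ZMod 7, ev (th^[i] (Tw (ft4 w) β')) z *
        (z7 (2 * β * β') * F c β (-1 / z)) = J κ z * p i z * ev (P c (ft4 w) i) z := by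
    intro i _
    rw [← Finset.mul_sum, Finset.sum_comm]
    simp_rw [← Finset.mul_sum, pair_F h _ hz]
    rw [ev_P hc _ _ hz, Finset.mul_sum, Finset.mul_sum]
    refine Finset.sum_congr rfl fun β' _ => ?_
    unfold J
    ring
  rw [Finset.sum_congr rfl e2, Finset.sum_range_succ, hp2 z hz, Finset.sum_eq_zero, zero_add]
  intro i hi
  rw [Finset.mem_range] at hi
  rw [h0 i hi, ev_zero, mul_zero]

theorem P_add_w (c : ℕ → ZMod 7 → ℤ) (w w' : ZMod 4 → ℂ) (j : ℕ) : P c (w + w') j = P c w j + P c w' j := by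
  unfold P
  rw [← Finset.sum_add_distrib]
  refine Finset.sum_congr rfl fun β _ => ?_
  rw [← mul_add]
  congr 1
  ext n
  rw [map_add, coeff_iter, coeff_iter, coeff_iter, Tw_add, map_add]
  ring

theorem P_smul_w (c : ℕ → ZMod 7 → ℤ) (a : ℂ) (w : ZMod 4 → ℂ) (j : ℕ) : P c (a • w) j = a • P c w j := by
  unfold P
  rw [Finset.smul_sum]
  refine Finset.sum_congr rfl fun β _ => ?_
  rw [← mul_smul_comm]
  congr 1
  ext n
  rw [map_smul, coeff_iter, coeff_iter, Tw_smul, map_smul, smul_eq_mul, smul_eq_mul]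
  ring

theorem P_sub_c (c c' : ℕ → ZMod 7 → ℤ) (k k' : ℤ) (w : ZMod 4 → ℂ) (j : ℕ) :
    P (fun n β => k * c' n β - k' * c n β) w j = (k : ℂ) • P c' w j - (k' : ℂ) • P c w j := by
  unfold P
  rw [Finset.smul_sum, Finset.smul_sum, ← Finset.sum_sub_distrib]
  refine Finset.sum_congr rfl fun β _ => ?_
  rw [← smul_mul_assoc, ← smul_mul_assoc, ← sub_mul]
  congr 1
  ext n
  rw [map_sub, map_smul, map_smul, coeff_Fs, coeff_Fs, coeff_Fs, smul_eq_mul, smul_eq_mul]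
  push_cast
  ring

/-- the coefficients of the pairing -/
theorem coeff_P (c : ℕ → ZMod 7 → ℤ) (w : ZMod 4 → ℂ) (j M : ℕ) : PowerSeries.coeff M (P c w j) =
    ∑ b ∈ (Icc (-(M : ℤ)) M).filter (fun b => b ^ 2 ≤ (M : ℤ)),
      w (b : ZMod 4) * ((b : ℂ) ^ 2) ^ j * (c ((M - b ^ 2).toNat) (b : ZMod 7) : ℂ) := by
  unfold P
  rw [map_sum]
  have e1 : ∀ β : ZMod 7, PowerSeries.coeff M (Fs c β * th^[j] (Tw w β)) =
      ∑ p ∈ Finset.HasAntidiagonal.antidiagonal M,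
        ∑ b ∈ (Icc (-(p.2 : ℤ)) p.2).filter (fun b => b ^ 2 = (p.2 : ℤ)),
          (if (b : ZMod 7) = β then w (b : ZMod 4) * ((b : ℂ) ^ 2) ^ j * (c p.1 β : ℂ) else 0) := by
    intro β
    rw [PowerSeries.coeff_mul]
    refine Finset.sum_congr rfl fun p _ => ?_
    rw [coeff_Fs, coeff_iter, coeff_Tw, Finset.mul_sum, Finset.mul_sum]
    refine Finset.sum_congr rfl fun b hb => ?_
    rw [Finset.mem_filter] at hb
    have h3 : ((p.2 : ℕ) : ℂ) = (b : ℂ) ^ 2 := by exact_mod_cast hb.2.symm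
    rw [h3]
    split_ifs
    · ring
    · ring
  simp_rw [e1]
  rw [Finset.sum_comm]
  have e2 : ∀ p ∈ Finset.HasAntidiagonal.antidiagonal M, ∑ β : ZMod 7, ∑ b ∈ (Icc (-(p.2 : ℤ)) p.2).filter (fun b => b ^ 2 = (p.2 : ℤ)),
          (if (b : ZMod 7) = β then w (b : ZMod 4) * ((b : ℂ) ^ 2) ^ j * (c p.1 β : ℂ) else 0) =
      ∑ b ∈ (Icc (-(p.2 : ℤ)) p.2).filter (fun b => b ^ 2 = (p.2 : ℤ)),
        w (b : ZMod 4) * ((b : ℂ) ^ 2) ^ j * (c p.1 (b : ZMod 7) : ℂ) := by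
    intro p _
    rw [Finset.sum_comm]
    refine Finset.sum_congr rfl fun b _ => ?_
    rw [Finset.sum_ite_eq Finset.univ (b : ZMod 7)
      (fun β => w (b : ZMod 4) * ((b : ℂ) ^ 2) ^ j * (c p.1 β : ℂ)), if_pos (mem_univ _)]
  rw [Finset.sum_congr rfl e2, Finset.sum_sigma']
  refine Finset.sum_bij' (fun x _ => x.2) (fun b _ => ⟨((M - b ^ 2).toNat, (b ^ 2).toNat), b⟩) ?_ ?_ ?_ ?_ ?_
  · rintro ⟨p, b⟩ hx
    rw [Finset.mem_sigma, Finset.mem_filter, Finset.mem_Icc, Finset.HasAntidiagonal.mem_antidiagonal] at hx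
    obtain ⟨h1, ⟨h2, h3⟩, h4⟩ := hx
    rw [Finset.mem_filter, Finset.mem_Icc]
    simp only at *
    refine ⟨⟨?_, ?_⟩, ?_⟩ <;> omega
  · intro b hb
    rw [Finset.mem_filter, Finset.mem_Icc] at hb
    obtain ⟨⟨h2, h3⟩, h4⟩ := hb
    rw [Finset.mem_sigma, Finset.mem_filter, Finset.mem_Icc, Finset.HasAntidiagonal.mem_antidiagonal]
    simp only
    have h5 := Int.le_self_sq b
    have h6 := Int.le_self_sq (-b)
    have h7 : (-b) ^ 2 = b ^ 2 := by ring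
    have h8 := sq_nonneg b
    refine ⟨?_, ⟨?_, ?_⟩, ?_⟩ <;> omega
  · rintro ⟨p, b⟩ hx
    rw [Finset.mem_sigma, Finset.mem_filter, Finset.mem_Icc, Finset.HasAntidiagonal.mem_antidiagonal] at hx
    obtain ⟨h1, ⟨h2, h3⟩, h4⟩ := hx
    simp only at *
    have e1 : (M - b ^ 2).toNat = p.1 := by omega
    have e2 : (b ^ 2).toNat = p.2 := by omega
    rw [e1, e2]
  · intro b _
    rfl
  · rintro ⟨p, b⟩ hx
    rw [Finset.mem_sigma, Finset.mem_filter, Finset.mem_Icc, Finset.HasAntidiagonal.mem_antidiagonal] at hx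
    obtain ⟨h1, ⟨h2, h3⟩, h4⟩ := hx
    simp only at *
    have e1 : (M - b ^ 2).toNat = p.1 := by omega
    rw [e1]

theorem P_supp {c : ℕ → ZMod 7 → ℤ} {w : ZMod 4 → ℂ} {j M : ℕ} (h : PowerSeries.coeff M (P c w j) ≠ 0) :
    ∃ (n : ℕ) (b : ℤ), (n : ℤ) + b ^ 2 = M ∧ c n (b : ZMod 7) ≠ 0 ∧ w (b : ZMod 4) ≠ 0 := by
  rw [coeff_P] at h
  obtain ⟨b, hb, hne⟩ := Finset.exists_ne_zero_of_sum_ne_zero h
  rw [Finset.mem_filter, Finset.mem_Icc] at hb
  refine ⟨(M - b ^ 2).toNat, b, ?_, ?_, ?_⟩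
  · omega
  · intro h0
    rw [h0] at hne
    simp at hne
  · intro h0
    rw [h0] at hne
    simp at hne

/-! ### level one -/

theorem lv1 (h2 : S_LV1) {f : PowerSeries ℂ} (hf : PB f)
    (hsupp : ∀ n, PowerSeries.coeff n f ≠ 0 → 56 ∣ n) (w : ℕ) (hw : Even w)
    (htr : ∀ z : ℂ, 0 < z.im → ev f (-1 / z) = z ^ w * ev f z)
    (h0 : ∀ n : ℕ, 12 * n ≤ w → PowerSeries.coeff (56 * n) f = 0) : f = 0 := by
  have hev : ∀ z : ℂ, ev f z = ∑' n : ℕ, PowerSeries.coeff (56 * n) f *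
      Complex.exp (2 * Real.pi * Complex.I * n * z) := by
    intro z
    unfold ev
    have hinj : Function.Injective (fun n : ℕ => 56 * n) := fun a b h => by
      simp only at h
      omega
    rw [← hinj.tsum_eq (f := fun n : ℕ => PowerSeries.coeff n f *
      Complex.exp (2 * Real.pi * Complex.I * n * z / 56))]
    · refine tsum_congr fun n => ?_
      congr 2
      push_cast
      ring
    · intro n hn
      rw [Function.mem_support] at hn
      obtain ⟨k, hk⟩ := hsupp n fun h => hn (by rw [h, zero_mul])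
      exact ⟨k, hk.symm⟩
  have key := h2 w (fun n => PowerSeries.coeff (56 * n) f) hw ?_ ?_ h0
  · ext n
    rw [map_zero]
    by_contra hne
    obtain ⟨k, hk⟩ := hsupp n hne
    rw [hk] at hne
    exact hne (key k)
  · obtain ⟨C, k, h⟩ := hf
    refine ⟨C * 56 ^ k, k, fun n => ?_⟩
    refine (h (56 * n)).trans ?_
    push_cast
    have : ((56 : ℝ) * n + 1) ^ k ≤ (56 * ((n : ℝ) + 1)) ^ k :=
      pow_le_pow_left₀ (by positivity) (by linarith) _
    calc (C : ℝ) * ((56 : ℝ) * n + 1) ^ k ≤ C * (56 * ((n : ℝ) + 1)) ^ k :=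
          mul_le_mul_of_nonneg_left this (by positivity)
      _ = _ := by rw [mul_pow]; ring
  · intro z hz
    rw [← hev, ← hev]
    exact htr z hz

end

end Pool.Agent.NH79.QS
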