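import Pool.Agent.NH1.Sub

/-!
# Power series in `exp (2 π i z / 56)`

Infrastructure for the uniqueness theorems of the project NH1: power series with polynomially bounded
coefficients, evaluated on the upper half plane.
-/

set_option autoImplicit false

namespace Pool.Agent.NH79.QS

open Finset
open Pool.Agent.NH1 (S_LV1 S_TH1 VV F z7)

noncomputable section

/-- polynomially bounded coefficients -/
def PB (f : PowerSeries ℂ) : Prop := ∃ C k : ℕ, ∀ n, ‖PowerSeries.coeff n f‖ ≤ (C : ℝ) * ((n : ℝ) + 1) ^ k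

/-- the value at `z` -/
def ev (f : PowerSeries ℂ) (z : ℂ) : ℂ :=
  ∑' n : ℕ, PowerSeries.coeff n f * Complex.exp (2 * Real.pi * Complex.I * n * z / 56)

/-- the coefficients multiplied by `n` -/
def th (f : PowerSeries ℂ) : PowerSeries ℂ := PowerSeries.mk fun n => (n : ℂ) * PowerSeries.coeff n f

theorem coeff_th (f : PowerSeries ℂ) (n : ℕ) :
    PowerSeries.coeff n (th f) = (n : ℂ) * PowerSeries.coeff n f := by
  simp [th]

/-! ### summability -/

theorem norm_exp56 (z : ℂ) (n : ℕ) :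
    ‖Complex.exp (2 * Real.pi * Complex.I * n * z / 56)‖ = (Real.exp (-(2 * Real.pi * z.im / 56))) ^ n := by
  rw [Complex.norm_exp, ← Real.exp_nat_mul]
  congr 1
  have : (2 * Real.pi * Complex.I * n * z / 56 : ℂ) = ((2 * Real.pi * n / 56 : ℝ) : ℂ) * (Complex.I * z) := by
    push_cast
    ring
  rw [this, Complex.re_ofReal_mul]
  simp
  ring

theorem exp56_lt {y : ℝ} (hy : 0 < y) : Real.exp (-(2 * Real.pi * y / 56)) < 1 := by
  rw [Real.exp_lt_one_iff]
  have := Real.pi_pos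
  have : 0 < 2 * Real.pi * y / 56 := by positivity
  linarith

theorem summable_aux (k : ℕ) {r : ℝ} (h0 : 0 < r) (h1 : r < 1) :
    Summable fun n : ℕ => ((n : ℝ) + 1) ^ k * r ^ n := by
  have hs : Summable fun n : ℕ => (n : ℝ) ^ k * r ^ n := by
    apply summable_pow_mul_geometric_of_norm_lt_one
    rw [Real.norm_eq_abs, abs_of_pos h0]
    exact h1
  have hs' := (summable_nat_add_iff 1).2 hs
  have hs'' := hs'.mul_right r⁻¹
  refine hs''.congr fun n => ?_
  push_cast
  rw [pow_succ]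
  field_simp

theorem PB.summable_r {f : PowerSeries ℂ} (hf : PB f) {r : ℝ} (h0 : 0 < r) (h1 : r < 1) :
    Summable fun n : ℕ => ‖PowerSeries.coeff n f‖ * r ^ n := by
  obtain ⟨C, k, h⟩ := hf
  refine Summable.of_nonneg_of_le (fun n => by positivity) (fun n => ?_) ((summable_aux k h0 h1).mul_left (C : ℝ))
  rw [← mul_assoc]
  exact mul_le_mul_of_nonneg_right (h n) (by positivity)

theorem PB.summable_norm {f : PowerSeries ℂ} (hf : PB f) {z : ℂ} (hz : 0 < z.im) :
    Summable fun n : ℕ => ‖PowerSeries.coeff n f * Complex.exp (2 * Real.pi * Complex.I * n * z / 56)‖ := by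
  simp_rw [norm_mul, norm_exp56]
  exact hf.summable_r (Real.exp_pos _) (exp56_lt hz)

theorem PB.summable {f : PowerSeries ℂ} (hf : PB f) {z : ℂ} (hz : 0 < z.im) :
    Summable fun n : ℕ => PowerSeries.coeff n f * Complex.exp (2 * Real.pi * Complex.I * n * z / 56) :=
  (hf.summable_norm hz).of_norm

/-! ### closure of `PB` -/

theorem PB.mono {f : PowerSeries ℂ} {C k : ℕ}
    (h : ∀ n, ‖PowerSeries.coeff n f‖ ≤ (C : ℝ) * ((n : ℝ) + 1) ^ k) {C' k' : ℕ} (hC : C ≤ C') (hk : k ≤ k') :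
    ∀ n, ‖PowerSeries.coeff n f‖ ≤ (C' : ℝ) * ((n : ℝ) + 1) ^ k' := by
  intro n
  have h1 : (1 : ℝ) ≤ (n : ℝ) + 1 := by linarith [Nat.cast_nonneg (α := ℝ) n]
  calc ‖PowerSeries.coeff n f‖ ≤ (C : ℝ) * ((n : ℝ) + 1) ^ k := h n
    _ ≤ (C' : ℝ) * ((n : ℝ) + 1) ^ k' := by
      apply mul_le_mul (by exact_mod_cast hC) (pow_le_pow_right₀ h1 hk) (by positivity) (by positivity)

theorem PB.zero : PB 0 := ⟨0, 0, fun n => by simp⟩

theorem PB.neg {f : PowerSeries ℂ} (hf : PB f) : PB (-f) := by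
  obtain ⟨C, k, h⟩ := hf
  exact ⟨C, k, fun n => by simpa using h n⟩

theorem PB.add {f g : PowerSeries ℂ} (hf : PB f) (hg : PB g) : PB (f + g) := by
  obtain ⟨C, k, h⟩ := hf
  obtain ⟨D, l, h'⟩ := hg
  refine ⟨C + D, max k l, fun n => ?_⟩
  have e1 := PB.mono h le_rfl (le_max_left k l) n
  have e2 := PB.mono h' le_rfl (le_max_right k l) n
  rw [map_add]
  refine (norm_add_le _ _).trans ?_
  push_cast
  nlinarith

theorem PB.sub {f g : PowerSeries ℂ} (hf : PB f) (hg : PB g) : PB (f - g) := by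
  rw [sub_eq_add_neg]
  exact hf.add hg.neg

theorem PB.smul {f : PowerSeries ℂ} (hf : PB f) (a : ℂ) : PB (a • f) := by
  obtain ⟨C, k, h⟩ := hf
  refine ⟨⌈‖a‖⌉₊ * C, k, fun n => ?_⟩
  rw [map_smul, smul_eq_mul, norm_mul]
  push_cast
  rw [mul_assoc]
  exact mul_le_mul (Nat.le_ceil _) (h n) (norm_nonneg _) (by positivity)

theorem PB.sum {ι : Type*} (s : Finset ι) (f : ι → PowerSeries ℂ) (h : ∀ i ∈ s, PB (f i)) :
    PB (∑ i ∈ s, f i) := by
  classical
  induction s using Finset.induction_on with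
  | empty => simpa using PB.zero
  | insert a s ha ih =>
    rw [Finset.sum_insert ha]
    exact (h a (mem_insert_self _ _)).add (ih fun i hi => h i (mem_insert_of_mem hi))

theorem PB.mul {f g : PowerSeries ℂ} (hf : PB f) (hg : PB g) : PB (f * g) := by
  obtain ⟨C, k, h⟩ := hf
  obtain ⟨D, l, h'⟩ := hg
  refine ⟨C * D, k + l + 1, fun n => ?_⟩
  rw [PowerSeries.coeff_mul]
  refine (norm_sum_le _ _).trans ?_
  have hb : ∀ p ∈ antidiagonal n, ‖PowerSeries.coeff p.1 f * PowerSeries.coeff p.2 g‖ ≤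
      (C : ℝ) * D * ((n : ℝ) + 1) ^ (k + l) := by
    intro p hp
    rw [Finset.HasAntidiagonal.mem_antidiagonal] at hp
    have h1 : ((p.1 : ℝ) + 1) ≤ (n : ℝ) + 1 := by
      have : p.1 ≤ n := by omega
      have : (p.1 : ℝ) ≤ n := by exact_mod_cast this
      linarith
    have h2 : ((p.2 : ℝ) + 1) ≤ (n : ℝ) + 1 := by
      have : p.2 ≤ n := by omega
      have : (p.2 : ℝ) ≤ n := by exact_mod_cast this
      linarith
    rw [norm_mul]
    calc ‖PowerSeries.coeff p.1 f‖ * ‖PowerSeries.coeff p.2 g‖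
        ≤ ((C : ℝ) * ((n : ℝ) + 1) ^ k) * ((D : ℝ) * ((n : ℝ) + 1) ^ l) := by
          apply mul_le_mul _ _ (norm_nonneg _) (by positivity)
          · exact (h p.1).trans (mul_le_mul_of_nonneg_left (pow_le_pow_left₀ (by positivity) h1 _) (by positivity))
          · exact (h' p.2).trans (mul_le_mul_of_nonneg_left (pow_le_pow_left₀ (by positivity) h2 _) (by positivity))
      _ = _ := by rw [pow_add]; ring
  refine (Finset.sum_le_sum hb).trans ?_
  rw [Finset.sum_const, Finset.Nat.card_antidiagonal, nsmul_eq_mul]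
  push_cast
  apply le_of_eq
  ring

theorem PB.pow {f : PowerSeries ℂ} (hf : PB f) (m : ℕ) : PB (f ^ m) := by
  induction m with
  | zero =>
    rw [pow_zero]
    refine ⟨1, 0, fun n => ?_⟩
    rw [PowerSeries.coeff_one]
    split_ifs <;> simp
  | succ m ih =>
    rw [pow_succ]
    exact ih.mul hf

theorem PB.th {f : PowerSeries ℂ} (hf : PB f) : PB (th f) := by
  obtain ⟨C, k, h⟩ := hf
  refine ⟨C, k + 1, fun n => ?_⟩
  rw [coeff_th, norm_mul, Complex.norm_natCast, pow_succ]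
  have h1 : (n : ℝ) ≤ (n : ℝ) + 1 := by linarith
  calc (n : ℝ) * ‖PowerSeries.coeff n f‖ ≤ ((n : ℝ) + 1) * ((C : ℝ) * ((n : ℝ) + 1) ^ k) :=
        mul_le_mul h1 (h n) (norm_nonneg _) (by positivity)
    _ = _ := by ring

/-! ### evaluation -/

theorem ev_zero (z : ℂ) : ev 0 z = 0 := by simp [ev]

theorem ev_add {f g : PowerSeries ℂ} (hf : PB f) (hg : PB g) {z : ℂ} (hz : 0 < z.im) :
    ev (f + g) z = ev f z + ev g z := by
  unfold ev
  rw [← (hf.summable hz).tsum_add (hg.summable hz)]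
  refine tsum_congr fun n => ?_
  rw [map_add, add_mul]

theorem ev_smul (f : PowerSeries ℂ) (a z : ℂ) : ev (a • f) z = a * ev f z := by
  unfold ev
  rw [← tsum_mul_left]
  refine tsum_congr fun n => ?_
  rw [map_smul, smul_eq_mul, mul_assoc]

theorem ev_neg (f : PowerSeries ℂ) (z : ℂ) : ev (-f) z = -ev f z := by
  have := ev_smul f (-1) z
  simpa using this

theorem ev_sub {f g : PowerSeries ℂ} (hf : PB f) (hg : PB g) {z : ℂ} (hz : 0 < z.im) :
    ev (f - g) z = ev f z - ev g z := by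
  rw [sub_eq_add_neg, ev_add hf hg.neg hz, ev_neg, sub_eq_add_neg]

theorem ev_sum {ι : Type*} (s : Finset ι) (f : ι → PowerSeries ℂ) (h : ∀ i ∈ s, PB (f i)) {z : ℂ}
    (hz : 0 < z.im) : ev (∑ i ∈ s, f i) z = ∑ i ∈ s, ev (f i) z := by
  classical
  induction s using Finset.induction_on with
  | empty => simpa using ev_zero z
  | insert a s ha ih =>
    rw [Finset.sum_insert ha, Finset.sum_insert ha,
      ev_add (h a (mem_insert_self _ _)) (PB.sum s f fun i hi => h i (mem_insert_of_mem hi)) hz,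
      ih fun i hi => h i (mem_insert_of_mem hi)]

theorem ev_mul {f g : PowerSeries ℂ} (hf : PB f) (hg : PB g) {z : ℂ} (hz : 0 < z.im) :
    ev (f * g) z = ev f z * ev g z := by
  unfold ev
  rw [tsum_mul_tsum_eq_tsum_sum_antidiagonal_of_summable_norm (hf.summable_norm hz) (hg.summable_norm hz)]
  refine tsum_congr fun n => ?_
  rw [PowerSeries.coeff_mul, Finset.sum_mul]
  refine Finset.sum_congr rfl fun p hp => ?_
  rw [Finset.HasAntidiagonal.mem_antidiagonal] at hp
  have : Complex.exp (2 * Real.pi * Complex.I * n * z / 56) =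
      Complex.exp (2 * Real.pi * Complex.I * p.1 * z / 56) *
      Complex.exp (2 * Real.pi * Complex.I * p.2 * z / 56) := by
    rw [← Complex.exp_add, ← hp]
    congr 1
    push_cast
    ring
  rw [this]
  ring

theorem ev_pow {f : PowerSeries ℂ} (hf : PB f) (m : ℕ) {z : ℂ} (hz : 0 < z.im) :
    ev (f ^ m) z = ev f z ^ m := by
  induction m with
  | zero =>
    rw [pow_zero, pow_zero]
    unfold ev
    rw [tsum_eq_single 0]
    · simp
    · intro n hn
      rw [PowerSeries.coeff_one, if_neg hn, zero_mul]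
  | succ m ih =>
    rw [pow_succ, pow_succ, ev_mul (hf.pow m) hf hz, ih]

/-! ### uniqueness -/

theorem uniq_zero (a : ℕ → ℂ) (hs : Summable fun n : ℕ => ‖a n‖ * (1 / 2 : ℝ) ^ n)
    (h : ∀ t : ℝ, 0 < t → t ≤ 1 / 2 → ∑' n, a n * (t : ℂ) ^ n = 0) : a 0 = 0 := by
  have hs1 : Summable fun n : ℕ => ‖a (n + 1)‖ * (1 / 2 : ℝ) ^ (n + 1) := (summable_nat_add_iff 1).2 hs
  set K : ℝ := 2 * ∑' n : ℕ, ‖a (n + 1)‖ * (1 / 2 : ℝ) ^ (n + 1) with hK
  have hb : ∀ t : ℝ, 0 < t → t ≤ 1 / 2 → ‖a 0‖ ≤ t * K := by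
    intro t ht ht2
    have hle : ∀ n : ℕ, ‖a (n + 1) * (t : ℂ) ^ (n + 1)‖ ≤ 2 * t * (‖a (n + 1)‖ * (1 / 2 : ℝ) ^ (n + 1)) := by
      intro n
      rw [norm_mul, norm_pow, Complex.norm_real, Real.norm_eq_abs, abs_of_pos ht]
      have : t ^ (n + 1) ≤ 2 * t * (1 / 2 : ℝ) ^ (n + 1) := by
        have e1 : t ^ n ≤ (1 / 2 : ℝ) ^ n := pow_le_pow_left₀ ht.le ht2 n
        rw [pow_succ, pow_succ]
        nlinarith
      calc ‖a (n + 1)‖ * t ^ (n + 1) ≤ ‖a (n + 1)‖ * (2 * t * (1 / 2 : ℝ) ^ (n + 1)) :=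
            mul_le_mul_of_nonneg_left this (norm_nonneg _)
        _ = _ := by ring
    have hsn : Summable fun n : ℕ => ‖a (n + 1) * (t : ℂ) ^ (n + 1)‖ :=
      Summable.of_nonneg_of_le (fun n => norm_nonneg _) hle (hs1.mul_left _)
    have hst : Summable fun n : ℕ => a n * (t : ℂ) ^ n := (summable_nat_add_iff 1).1 hsn.of_norm
    have h0 := h t ht ht2
    rw [hst.tsum_eq_zero_add] at h0
    have h1 : a 0 = -∑' n : ℕ, a (n + 1) * (t : ℂ) ^ (n + 1) := by
      have : a 0 * (t : ℂ) ^ 0 = a 0 := by simp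
      rw [this] at h0
      linear_combination h0
    rw [h1, norm_neg]
    refine (norm_tsum_le_tsum_norm hsn).trans ?_
    calc ∑' n : ℕ, ‖a (n + 1) * (t : ℂ) ^ (n + 1)‖
        ≤ ∑' n : ℕ, 2 * t * (‖a (n + 1)‖ * (1 / 2 : ℝ) ^ (n + 1)) :=
          hsn.tsum_le_tsum hle (hs1.mul_left _)
      _ = t * K := by rw [tsum_mul_left, hK]; ring
  have hK0 : 0 ≤ K := by
    rw [hK]
    have : 0 ≤ ∑' n : ℕ, ‖a (n + 1)‖ * (1 / 2 : ℝ) ^ (n + 1) := tsum_nonneg fun n => by positivity
    linarith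
  by_contra hne
  have hpos : 0 < ‖a 0‖ := norm_pos_iff.2 hne
  have h2 := hb (min (1 / 2) (‖a 0‖ / (2 * (K + 1)))) (by positivity) (min_le_left _ _)
  have h3 : min (1 / 2) (‖a 0‖ / (2 * (K + 1))) * K ≤ ‖a 0‖ / (2 * (K + 1)) * K :=
    mul_le_mul_of_nonneg_right (min_le_right _ _) hK0
  have h4 : ‖a 0‖ / (2 * (K + 1)) * K < ‖a 0‖ := by
    rw [div_mul_eq_mul_div, div_lt_iff₀ (by positivity)]
    nlinarith
  linarith

theorem uniq (n : ℕ) : ∀ a : ℕ → ℂ, (Summable fun n : ℕ => ‖a n‖ * (1 / 2 : ℝ) ^ n) →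
    (∀ t : ℝ, 0 < t → t ≤ 1 / 2 → ∑' n, a n * (t : ℂ) ^ n = 0) → a n = 0 := by
  induction n with
  | zero => exact fun a h1 h2 => uniq_zero a h1 h2
  | succ n ih =>
    intro a hs h
    have ha0 := uniq_zero a hs h
    have hs1 : Summable fun n : ℕ => ‖a (n + 1)‖ * (1 / 2 : ℝ) ^ (n + 1) := (summable_nat_add_iff 1).2 hs
    refine ih (fun n => a (n + 1)) ?_ ?_
    · refine (hs1.mul_left 2).congr fun n => ?_
      rw [pow_succ]
      ring
    · intro t ht ht2
      have hsn : Summable fun n : ℕ => ‖a (n + 1) * (t : ℂ) ^ (n + 1)‖ := by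
        refine Summable.of_nonneg_of_le (fun n => norm_nonneg _) (fun n => ?_) hs1
        rw [norm_mul, norm_pow, Complex.norm_real, Real.norm_eq_abs, abs_of_pos ht]
        exact mul_le_mul_of_nonneg_left (pow_le_pow_left₀ ht.le ht2 _) (norm_nonneg _)
      have hst : Summable fun n : ℕ => a n * (t : ℂ) ^ n := (summable_nat_add_iff 1).1 hsn.of_norm
      have h0 := h t ht ht2
      rw [hst.tsum_eq_zero_add, ha0, zero_mul, zero_add] at h0
      have h1 : ∑' n : ℕ, a (n + 1) * (t : ℂ) ^ (n + 1) = (t : ℂ) * ∑' n : ℕ, a (n + 1) * (t : ℂ) ^ n := by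
        rw [← tsum_mul_left]
        refine tsum_congr fun n => ?_
        rw [pow_succ]
        ring
      rw [h1] at h0
      have ht0 : (t : ℂ) ≠ 0 := by exact_mod_cast ht.ne'
      exact (mul_eq_zero.1 h0).resolve_left ht0

theorem ev_inj {f : PowerSeries ℂ} (hf : PB f) (h : ∀ z : ℂ, 0 < z.im → ev f z = 0) : f = 0 := by
  ext n
  rw [map_zero]
  refine uniq n (fun n => PowerSeries.coeff n f) (hf.summable_r (by norm_num) (by norm_num)) ?_
  intro t ht ht2
  -- `t = exp (2 π i z / 56)` with `z = - 56 i log t / (2 π)`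
  have hlog : Real.log t < 0 := Real.log_neg ht (by linarith)
  set z : ℂ := ((-(56 * Real.log t / (2 * Real.pi)) : ℝ) : ℂ) * Complex.I with hz
  have hpi := Real.pi_pos
  have him : 0 < z.im := by
    rw [hz, Complex.mul_im]
    simp only [Complex.ofReal_re, Complex.I_im, mul_one, Complex.ofReal_im, Complex.I_re, mul_zero, add_zero]
    have : 56 * Real.log t / (2 * Real.pi) < 0 := by
      apply div_neg_of_neg_of_pos
      · linarith
      · positivity
    linarith
  have h1 := h z him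
  unfold ev at h1
  rw [← h1]
  refine tsum_congr fun n => ?_
  congr 1
  have h2 : (2 * Real.pi * Complex.I * n * z / 56 : ℂ) = ((n * Real.log t : ℝ) : ℂ) := by
    rw [hz]
    push_cast
    have hpi' : (Real.pi : ℂ) ≠ 0 := by exact_mod_cast hpi.ne'
    field_simp
    ring_nf
    rw [Complex.I_sq]
    ring
  rw [h2, ← Complex.ofReal_exp, Real.exp_nat_mul, Real.exp_log ht]
  push_cast
  rfl

theorem ev_inj' {f g : PowerSeries ℂ} (hf : PB f) (hg : PB g) (h : ∀ z : ℂ, 0 < z.im → ev f z = ev g z) :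
    f = g := by
  have := ev_inj (hf.sub hg) fun z hz => by rw [ev_sub hf hg hz, h z hz, sub_self]
  exact sub_eq_zero.1 this

/-! ### derivative -/

theorem ev_hasDerivAt {f : PowerSeries ℂ} (hf : PB f) {z : ℂ} (hz : 0 < z.im) :
    HasDerivAt (ev f) (2 * Real.pi * Complex.I / 56 * ev (th f) z) z := by
  have hpi := Real.pi_pos
  set t : Set ℂ := {w : ℂ | z.im / 2 < w.im} with ht
  have hopen : IsOpen t := isOpen_lt continuous_const Complex.continuous_im
  have hconv : IsPreconnected t := (convex_halfSpace_im_gt (z.im / 2)).isPreconnected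
  have hzt : z ∈ t := by
    rw [ht, Set.mem_ofPred_eq]
    linarith
  set r : ℝ := Real.exp (-(2 * Real.pi * (z.im / 2) / 56)) with hr
  have hr1 : r < 1 := exp56_lt (by linarith)
  have hr0 : 0 < r := Real.exp_pos _
  have hu : Summable fun n : ℕ => (2 * Real.pi / 56) * (‖PowerSeries.coeff n (th f)‖ * r ^ n) :=
    (hf.th.summable_r hr0 hr1).mul_left _
  have hder : ∀ (n : ℕ) (y : ℂ), y ∈ t →
      HasDerivAt (fun z => PowerSeries.coeff n f * Complex.exp (2 * Real.pi * Complex.I * n * z / 56))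
        (2 * Real.pi * Complex.I / 56 * (PowerSeries.coeff n (th f) *
          Complex.exp (2 * Real.pi * Complex.I * n * y / 56))) y := by
    intro n y _
    have h1 : HasDerivAt (fun z : ℂ => 2 * Real.pi * Complex.I * n * z / 56)
        (2 * Real.pi * Complex.I * n / 56) y := by
      have := ((hasDerivAt_id y).const_mul (2 * Real.pi * Complex.I * n : ℂ)).div_const 56
      simpa using this
    have h2 := (h1.cexp).const_mul (PowerSeries.coeff n f)
    refine h2.congr_deriv ?_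
    rw [coeff_th]
    ring
  have hb : ∀ (n : ℕ) (y : ℂ), y ∈ t → ‖2 * Real.pi * Complex.I / 56 * (PowerSeries.coeff n (th f) *
          Complex.exp (2 * Real.pi * Complex.I * n * y / 56))‖ ≤
      (2 * Real.pi / 56) * (‖PowerSeries.coeff n (th f)‖ * r ^ n) := by
    intro n y hy
    rw [norm_mul, norm_mul, norm_exp56]
    have e1 : ‖(2 * Real.pi * Complex.I / 56 : ℂ)‖ = 2 * Real.pi / 56 := by
      rw [norm_div, norm_mul, norm_mul, Complex.norm_I, Complex.norm_real, Real.norm_eq_abs, abs_of_pos hpi]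
      simp
    rw [e1]
    apply mul_le_mul_of_nonneg_left _ (by positivity)
    apply mul_le_mul_of_nonneg_left _ (norm_nonneg _)
    apply pow_le_pow_left₀ (Real.exp_pos _).le
    rw [hr, Real.exp_le_exp]
    have : z.im / 2 < y.im := hy
    have : 2 * Real.pi * (z.im / 2) / 56 ≤ 2 * Real.pi * y.im / 56 := by
      apply div_le_div_of_nonneg_right _ (by norm_num)
      apply mul_le_mul_of_nonneg_left this.le (by positivity)
    linarith
  have key := hasDerivAt_tsum_of_isPreconnected hu hopen hconv hder hb hzt (hf.summable hz) hzt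
  rw [tsum_mul_left] at key
  exact key

end

end Pool.Agent.NH79.QS
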