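import Pool.Agent.NH79.QS

/-!
# Unary theta series, pairing with vector valued forms, level one
-/

set_option autoImplicit false

namespace Pool.Agent.NH79.QS

open Finset
open Pool.Agent.NH1 (S_LV1 S_TH1 VV F z7)

noncomputable section

/-! ### theta series as power series -/

/-- the unary theta series with coefficients `φ` -/
def Th (φ : ZMod 28 → ℂ) : PowerSeries ℂ :=
  PowerSeries.mk fun n => ∑ b ∈ (Icc (-(n : ℤ)) n).filter (fun b => b ^ 2 = (n : ℤ)), φ (b : ZMod 28)

theorem coeff_Th (φ : ZMod 28 → ℂ) (n : ℕ) : PowerSeries.coeff n (Th φ) =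
    ∑ b ∈ (Icc (-(n : ℤ)) n).filter (fun b => b ^ 2 = (n : ℤ)), φ (b : ZMod 28) := by
  simp [Th]

theorem PB_Th (φ : ZMod 28 → ℂ) : PB (Th φ) := by
  refine ⟨2 * ⌈∑ a, ‖φ a‖⌉₊, 1, fun n => ?_⟩
  rw [coeff_Th]
  have h1 : ∀ a, ‖φ a‖ ≤ (⌈∑ a, ‖φ a‖⌉₊ : ℝ) := fun a =>
    (Finset.single_le_sum (f := fun a => ‖φ a‖) (fun i _ => norm_nonneg _) (mem_univ a)).trans (Nat.le_ceil _)
  refine (norm_sum_le _ _).trans ?_
  have h2 := Finset.sum_le_card_nsmul ((Icc (-(n : ℤ)) n).filter (fun b => b ^ 2 = (n : ℤ)))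
    (fun b => ‖φ (b : ZMod 28)‖) (⌈∑ a, ‖φ a‖⌉₊ : ℝ) fun b _ => h1 _
  refine h2.trans ?_
  rw [nsmul_eq_mul]
  have h3 : (((Icc (-(n : ℤ)) n).filter (fun b => b ^ 2 = (n : ℤ))).card : ℝ) ≤ 2 * ((n : ℝ) + 1) := by
    have := Finset.card_filter_le (Icc (-(n : ℤ)) n) (fun b => b ^ 2 = (n : ℤ))
    rw [Int.card_Icc] at this
    have h4 : ((Icc (-(n : ℤ)) n).filter (fun b => b ^ 2 = (n : ℤ))).card ≤ 2 * (n + 1) := by omega
    exact_mod_cast h4
  have h5 : (0 : ℝ) ≤ (⌈∑ a, ‖φ a‖⌉₊ : ℝ) := Nat.cast_nonneg _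
  push_cast
  nlinarith

theorem summable_theta {z : ℂ} (hz : 0 < z.im) :
    Summable fun b : ℤ => ‖Complex.exp (Real.pi * Complex.I * (b : ℂ) ^ 2 * z / 28)‖ := by
  have h : 0 < (z / 28).im := by
    have : (z / 28 : ℂ) = ((1 / 28 : ℝ) : ℂ) * z := by push_cast; ring
    rw [this, Complex.im_ofReal_mul]
    positivity
  have := ((summable_jacobiTheta₂_term_iff 0 (z / 28)).2 h).norm
  refine this.congr fun b => ?_
  unfold jacobiTheta₂_term
  congr 2
  ring

theorem ev_Th (φ : ZMod 28 → ℂ) {z : ℂ} (hz : 0 < z.im) :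
    ev (Th φ) z = ∑' b : ℤ, φ (b : ZMod 28) * Complex.exp (Real.pi * Complex.I * (b : ℂ) ^ 2 * z / 28) := by
  set f : ℤ → ℂ := fun b => φ (b : ZMod 28) * Complex.exp (Real.pi * Complex.I * (b : ℂ) ^ 2 * z / 28) with hf
  have hs : Summable f := by
    refine Summable.of_norm_bounded ((summable_theta hz).mul_left (∑ a, ‖φ a‖)) fun b => ?_
    rw [hf, norm_mul]
    exact mul_le_mul_of_nonneg_right
      (Finset.single_le_sum (f := fun a => ‖φ a‖) (fun i _ => norm_nonneg _) (mem_univ _)) (norm_nonneg _)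
  have h1 := hs.hasSum.tsum_fiberwise (fun b : ℤ => b.natAbs ^ 2)
  rw [← h1.tsum_eq]
  unfold ev
  refine tsum_congr fun n => ?_
  have hset : ((fun b : ℤ => b.natAbs ^ 2) ⁻¹' {n} : Set ℤ) =
      (((Icc (-(n : ℤ)) n).filter (fun b => b ^ 2 = (n : ℤ)) : Finset ℤ) : Set ℤ) := by
    ext b
    simp only [Set.mem_preimage, Set.mem_singleton_iff, Finset.coe_filter, Finset.mem_Icc, Set.mem_ofPred_eq]
    constructor
    · intro h
      have h2 : b ^ 2 = (n : ℤ) := by
        rw [← h]
        push_cast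
        exact (sq_abs b).symm
      refine ⟨⟨?_, ?_⟩, h2⟩ <;> nlinarith [sq_nonneg (b - 1), sq_nonneg (b + 1), Int.natAbs_pow b 2, sq_abs b, h2,
          Int.le_self_sq b, Int.le_self_sq (-b)]
    · rintro ⟨_, h2⟩
      have : ((b.natAbs ^ 2 : ℕ) : ℤ) = (n : ℤ) := by
        push_cast
        rw [sq_abs, h2]
      exact_mod_cast this
  rw [hset, Finset.tsum_subtype' , coeff_Th, Finset.sum_mul]
  refine Finset.sum_congr rfl fun b hb => ?_
  rw [Finset.mem_filter] at hb
  rw [hf]
  congr 2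
  have : (b : ℂ) ^ 2 = (n : ℂ) := by exact_mod_cast hb.2
  rw [this]
  ring

theorem Th_add (φ ψ : ZMod 28 → ℂ) : Th (φ + ψ) = Th φ + Th ψ := by
  ext n
  rw [map_add, coeff_Th, coeff_Th, coeff_Th, ← Finset.sum_add_distrib]
  rfl

theorem Th_smul (a : ℂ) (φ : ZMod 28 → ℂ) : Th (a • φ) = a • Th φ := by
  ext n
  rw [map_smul, coeff_Th, coeff_Th, smul_eq_mul, Finset.mul_sum]
  rfl

theorem Th_zero : Th 0 = 0 := by
  ext n
  rw [coeff_Th]
  simp

theorem Th_sum {ι : Type*} (s : Finset ι) (φ : ι → ZMod 28 → ℂ) : Th (∑ i ∈ s, φ i) = ∑ i ∈ s, Th (φ i) := by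
  classical
  induction s using Finset.induction_on with
  | empty => rw [Finset.sum_empty, Finset.sum_empty, Th_zero]
  | insert a s ha ih => rw [Finset.sum_insert ha, Finset.sum_insert ha, Th_add, ih]

/-! ### the Fourier transform modulo `28` -/

/-- `e(x / 28)` as a character -/
abbrev E28 : AddChar (ZMod 28) ℂ := ZMod.stdAddChar
abbrev E4 : AddChar (ZMod 4) ℂ := ZMod.stdAddChar
abbrev E7 : AddChar (ZMod 7) ℂ := ZMod.stdAddChar

theorem z7_eq (x : ZMod 7) : z7 x = E7 x := by
  have := ZMod.stdAddChar_coe (N := 7) (x.val : ℤ)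
  have h2 : (((x.val : ℤ)) : ZMod 7) = x := by
    rw [Int.cast_natCast, ZMod.natCast_zmod_val]
  rw [h2] at this
  rw [this]
  unfold z7
  push_cast
  rfl

/-- the reduction modulo `4` and `7` -/
abbrev r4 : ZMod 28 →+* ZMod 4 := ZMod.castHom (by norm_num : 4 ∣ 28) (ZMod 4)
abbrev r7 : ZMod 28 →+* ZMod 7 := ZMod.castHom (by norm_num : 7 ∣ 28) (ZMod 7)

theorem E28_eq (x : ZMod 28) : E28 x = E4 (-(r4 x)) * E7 (2 * r7 x) := by
  obtain ⟨m, rfl⟩ : ∃ m : ℤ, x = (m : ZMod 28) := ⟨x.val, by rw [Int.cast_natCast, ZMod.natCast_zmod_val]⟩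
  have h1 : E28 (m : ZMod 28) = Complex.exp (2 * Real.pi * Complex.I * m / 28) := by
    have := ZMod.stdAddChar_coe (N := 28) m
    rw [this]
    push_cast
    rfl
  have h2 : -(r4 (m : ZMod 28)) = ((-m : ℤ) : ZMod 4) := by
    rw [map_intCast]
    push_cast
    rfl
  have h3 : 2 * (r7 (m : ZMod 28)) = ((2 * m : ℤ) : ZMod 7) := by
    rw [map_intCast]
    push_cast
    rfl
  rw [h1, h2, h3, ZMod.stdAddChar_coe, ZMod.stdAddChar_coe, ← Complex.exp_add]
  congr 1
  push_cast
  ring

/-- the Fourier transform modulo `28` -/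
def FT (φ : ZMod 28 → ℂ) : ZMod 28 → ℂ := fun b => ∑ a, φ a * E28 (a * b)

/-- the factor of the transformation -/
def hf (z : ℂ) : ℂ := (-Complex.I * z / 28) ^ ((1 : ℂ) / 2)

theorem neg_inv_im {z : ℂ} (hz : 0 < z.im) : 0 < (-1 / z).im := by
  have h0 : z ≠ 0 := fun h => by rw [h] at hz; simp at hz
  rw [Complex.div_im]
  simp only [Complex.neg_im, Complex.one_im, neg_zero, zero_mul, zero_div, zero_sub, Complex.neg_re,
    Complex.one_re, neg_mul, one_mul]
  have := Complex.normSq_pos.2 h0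
  rw [neg_div, neg_neg]
  positivity

theorem Th_trans (h1 : S_TH1) (φ : ZMod 28 → ℂ) {z : ℂ} (hz : 0 < z.im) :
    ev (Th φ) (-1 / z) = hf z * ev (Th (FT φ)) z := by
  rw [ev_Th φ (neg_inv_im hz), ev_Th (FT φ) hz]
  have := h1 28 φ z hz
  push_cast at this
  rw [this]
  unfold hf
  congr 1
  refine tsum_congr fun b => ?_
  congr 1
  unfold FT
  refine Finset.sum_congr rfl fun a _ => ?_
  congr 1
  have h2 := ZMod.stdAddChar_coe (N := 28) (((a * (b : ZMod 28)).val : ℕ) : ℤ)
  have h3 : ((((a * (b : ZMod 28)).val : ℕ) : ℤ) : ZMod 28) = a * (b : ZMod 28) := by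
    rw [Int.cast_natCast, ZMod.natCast_zmod_val]
  rw [h3] at h2
  rw [h2]
  push_cast
  rfl

theorem sum28 (G : ZMod 4 → ZMod 7 → ℂ) : ∑ a : ZMod 28, G (r4 a) (r7 a) = ∑ x : ZMod 4, ∑ y : ZMod 7, G x y := by
  rw [← Fintype.sum_prod_type' (f := fun x y => G x y)]
  have hb : Function.Bijective (fun a : ZMod 28 => ((r4 a, r7 a) : ZMod 4 × ZMod 7)) := by
    rw [Fintype.bijective_iff_injective_and_card]
    constructor
    · intro a b hab
      rw [Prod.mk.injEq] at hab
      revert a b
      decide +kernel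
    · simp [ZMod.card]
  exact Fintype.sum_bijective _ hb _ _ fun a => rfl

/-- the function `w` modulo four on the class `β` modulo seven -/
def ph28 (w : ZMod 4 → ℂ) (β : ZMod 7) : ZMod 28 → ℂ := fun b => if r7 b = β then w (r4 b) else 0

/-- the transform modulo four -/
def ft4 (w : ZMod 4 → ℂ) : ZMod 4 → ℂ := fun y => ∑ x, w x * E4 (-(x * y))

theorem FT_ph28 (w : ZMod 4 → ℂ) (β : ZMod 7) :
    FT (ph28 w β) = ∑ β' : ZMod 7, z7 (2 * β * β') • ph28 (ft4 w) β' := by
  funext b
  rw [Finset.sum_apply]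
  simp only [Pi.smul_apply, smul_eq_mul]
  have h1 : ∑ β' : ZMod 7, z7 (2 * β * β') * ph28 (ft4 w) β' b = z7 (2 * β * r7 b) * ft4 w (r4 b) := by
    rw [Finset.sum_eq_single (r7 b)]
    · unfold ph28
      rw [if_pos rfl]
    · intro β' _ hne
      unfold ph28
      rw [if_neg (fun h => hne h.symm), mul_zero]
    · intro h
      exact absurd (mem_univ _) h
  rw [h1]
  unfold FT
  have h2 : ∀ a : ZMod 28, ph28 w β a * E28 (a * b) =
      (fun (x : ZMod 4) (y : ZMod 7) => (if y = β then w x else 0) *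
        (E4 (-(x * r4 b)) * E7 (2 * (y * r7 b)))) (r4 a) (r7 a) := by
    intro a
    rw [E28_eq, map_mul r4, map_mul r7]
    rfl
  rw [Finset.sum_congr rfl fun a _ => h2 a, sum28 (fun (x : ZMod 4) (y : ZMod 7) => (if y = β then w x else 0) *
        (E4 (-(x * r4 b)) * E7 (2 * (y * r7 b))))]
  unfold ft4
  rw [Finset.mul_sum]
  refine Finset.sum_congr rfl fun x _ => ?_
  rw [Finset.sum_eq_single β]
  · rw [if_pos rfl, z7_eq]
    have : 2 * (β * r7 b) = 2 * β * r7 b := by ring
    rw [this]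
    ring
  · intro y _ hne
    rw [if_neg hne, zero_mul]
  · intro h
    exact absurd (mem_univ _) h

/-- the theta series of the class `β` -/
def Tw (w : ZMod 4 → ℂ) (β : ZMod 7) : PowerSeries ℂ := Th (ph28 w β)

theorem Tw_trans (h1 : S_TH1) (w : ZMod 4 → ℂ) (β : ZMod 7) {z : ℂ} (hz : 0 < z.im) :
    ev (Tw w β) (-1 / z) = hf z * ∑ β' : ZMod 7, z7 (2 * β * β') * ev (Tw (ft4 w) β') z := by
  unfold Tw
  rw [Th_trans h1 _ hz, FT_ph28, Th_sum, ev_sum _ _ (fun i _ => PB_Th _) hz]
  congr 1
  refine Finset.sum_congr rfl fun β' _ => ?_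
  rw [Th_smul, ev_smul]

theorem PB_Tw (w : ZMod 4 → ℂ) (β : ZMod 7) : PB (Tw w β) := PB_Th _

theorem coeff_Tw (w : ZMod 4 → ℂ) (β : ZMod 7) (n : ℕ) : PowerSeries.coeff n (Tw w β) =
    ∑ b ∈ (Icc (-(n : ℤ)) n).filter (fun b => b ^ 2 = (n : ℤ)),
      if (b : ZMod 7) = β then w (b : ZMod 4) else 0 := by
  unfold Tw
  rw [coeff_Th]
  refine Finset.sum_congr rfl fun b _ => ?_
  unfold ph28
  rw [map_intCast, map_intCast]

theorem Tw_add (w w' : ZMod 4 → ℂ) (β : ZMod 7) : Tw (w + w') β = Tw w β + Tw w' β := by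
  unfold Tw
  rw [← Th_add]
  congr 1
  funext b
  simp only [ph28, Pi.add_apply]
  split_ifs <;> simp

theorem Tw_smul (a : ℂ) (w : ZMod 4 → ℂ) (β : ZMod 7) : Tw (a • w) β = a • Tw w β := by
  unfold Tw
  rw [← Th_smul]
  congr 1
  funext b
  simp only [ph28, Pi.smul_apply, smul_eq_mul]
  split_ifs <;> simp

/-! ### derivatives of the transformation -/

theorem PB_iter {f : PowerSeries ℂ} (hf : PB f) (j : ℕ) : PB (th^[j] f) := by
  induction j with
  | zero => exact hf
  | succ j ih =>
    rw [Function.iterate_succ_apply']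
    exact ih.th

theorem coeff_iter (f : PowerSeries ℂ) (j n : ℕ) :
    PowerSeries.coeff n (th^[j] f) = (n : ℂ) ^ j * PowerSeries.coeff n f := by
  induction j with
  | zero => simp
  | succ j ih =>
    rw [Function.iterate_succ_apply', coeff_th, ih, pow_succ]
    ring

/-- the upper half plane -/
def UH : Set ℂ := {z : ℂ | 0 < z.im}

theorem UH_open : IsOpen UH := isOpen_lt continuous_const Complex.continuous_im

theorem hf_diff : DifferentiableOn ℂ hf UH := by
  intro z hz
  have hz' : 0 < z.im := hz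
  apply DifferentiableAt.differentiableWithinAt
  unfold hf
  apply DifferentiableAt.cpow_const
  · fun_prop
  · left
    have : (-Complex.I * z / 28 : ℂ) = ((1 / 28 : ℝ) : ℂ) * (-Complex.I * z) := by push_cast; ring
    rw [this, Complex.re_ofReal_mul]
    simp only [Complex.mul_re, Complex.I_re, zero_mul, Complex.neg_re,
      Complex.I_im, neg_mul, one_mul, zero_sub, neg_neg]
    positivity

theorem hf_ne {z : ℂ} (hz : 0 < z.im) : hf z ≠ 0 := by
  have h0 : z ≠ 0 := fun h => by rw [h] at hz; simp at hz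
  unfold hf
  rw [Ne, Complex.cpow_eq_zero_iff]
  rintro ⟨h, _⟩
  have : (-Complex.I * z / 28 : ℂ) ≠ 0 := by
    apply div_ne_zero
    · exact mul_ne_zero (neg_ne_zero.2 Complex.I_ne_zero) h0
    · norm_num
  exact this h

theorem Tw_trans_iter (h1 : S_TH1) (w : ZMod 4 → ℂ) (j : ℕ) : ∃ p : ℕ → ℂ → ℂ,
    (∀ i, DifferentiableOn ℂ (p i) UH) ∧ (∀ z ∈ UH, p j z = z ^ (2 * j)) ∧
    ∀ (β : ZMod 7) (z : ℂ), 0 < z.im → ev (th^[j] (Tw w β)) (-1 / z) =
      hf z * ∑ i ∈ range (j + 1), p i z *
        ∑ β' : ZMod 7, z7 (2 * β * β') * ev (th^[i] (Tw (ft4 w) β')) z := by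
  induction j with
  | zero =>
    refine ⟨fun _ _ => 1, fun i => differentiableOn_const _, fun z _ => by simp, fun β z hz => ?_⟩
    rw [zero_add, Finset.sum_range_one, one_mul]
    exact Tw_trans h1 w β hz
  | succ j ih =>
    obtain ⟨p, hp1, hp2, hp3⟩ := ih
    set k : ℂ := 2 * Real.pi * Complex.I / 56 with hk
    have hk0 : k ≠ 0 := by
      rw [hk]
      have : (Real.pi : ℂ) ≠ 0 := by exact_mod_cast Real.pi_pos.ne'
      exact div_ne_zero (mul_ne_zero (mul_ne_zero two_ne_zero this) Complex.I_ne_zero) (by norm_num)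
    -- the new functions
    set q : ℕ → ℂ → ℂ := fun i z => (if i ≤ j then k⁻¹ * z ^ 2 * (deriv hf z / hf z * p i z + deriv (p i) z) else 0) +
      (if i = 0 then 0 else z ^ 2 * p (i - 1) z) with hq
    refine ⟨q, ?_, ?_, ?_⟩
    · intro i
      rw [hq]
      apply DifferentiableOn.add
      · by_cases hi : i ≤ j
        · simp only [hi, if_true]
          apply DifferentiableOn.mul
          · fun_prop
          · apply DifferentiableOn.add
            · apply DifferentiableOn.mul
              · apply DifferentiableOn.div (hf_diff.deriv UH_open) hf_diff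
                intro z hz
                exact hf_ne hz
              · exact hp1 i
            · exact (hp1 i).deriv UH_open
        · simp only [hi, if_false]
          exact differentiableOn_const _
      · by_cases hi : i = 0
        · simp only [hi, if_true]
          exact differentiableOn_const _
        · simp only [hi, if_false]
          apply DifferentiableOn.mul
          · fun_prop
          · exact hp1 _
    · intro z hz
      rw [hq]
      simp only [Nat.not_succ_le_self, if_false, zero_add, Nat.succ_ne_zero, Nat.add_sub_cancel]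
      rw [hp2 z hz]
      ring
    · intro β z hz
      have h0 : z ≠ 0 := fun h => by rw [h] at hz; simp at hz
      set U : ℕ → ℂ → ℂ := fun i z => ∑ β' : ZMod 7, z7 (2 * β * β') * ev (th^[i] (Tw (ft4 w) β')) z with hU
      have hUd : ∀ i, HasDerivAt (U i) (k * U (i + 1) z) z := by
        intro i
        have : HasDerivAt (U i) (∑ β' : ZMod 7, z7 (2 * β * β') * (k * ev (th (th^[i] (Tw (ft4 w) β'))) z)) z := by
          have h5 := HasDerivAt.fun_sum (u := (Finset.univ : Finset (ZMod 7)))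
            (A := fun β' z => z7 (2 * β * β') * ev (th^[i] (Tw (ft4 w) β')) z)
            (A' := fun β' => z7 (2 * β * β') * (k * ev (th (th^[i] (Tw (ft4 w) β'))) z)) (x := z)
            (fun β' _ => (ev_hasDerivAt (PB_iter (PB_Tw _ _) i) hz).const_mul _)
          exact h5
        refine this.congr_deriv ?_
        rw [hU]
        simp only
        rw [Finset.mul_sum]
        refine Finset.sum_congr rfl fun β' _ => ?_
        rw [Function.iterate_succ_apply']
        ring
      -- left side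
      have hL : HasDerivAt (fun z => ev (th^[j] (Tw w β)) (-1 / z))
          (k * ev (th^[j + 1] (Tw w β)) (-1 / z) * (1 / z ^ 2)) z := by
        have e1 : HasDerivAt (fun z : ℂ => -1 / z) (1 / z ^ 2) z := by
          have := (hasDerivAt_inv h0).const_mul (-1 : ℂ)
          refine (this.congr_deriv ?_).congr_of_eventuallyEq ?_
          · rw [neg_one_mul, neg_neg]
            simp
          · exact Filter.Eventually.of_forall fun y => by simp [div_eq_mul_inv]
        have e2 := ev_hasDerivAt (PB_iter (PB_Tw w β) j) (neg_inv_im hz)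
        have e3 := HasDerivAt.comp z e2 e1
        rw [Function.iterate_succ_apply']
        exact e3
      -- right side
      have hR : HasDerivAt (fun z => hf z * ∑ i ∈ range (j + 1), p i z * U i z)
          (deriv hf z * ∑ i ∈ range (j + 1), p i z * U i z +
            hf z * ∑ i ∈ range (j + 1), (deriv (p i) z * U i z + p i z * (k * U (i + 1) z))) z := by
        apply HasDerivAt.mul
        · exact ((hf_diff z hz).differentiableAt (UH_open.mem_nhds hz)).hasDerivAt
        · have h6 := HasDerivAt.fun_sum (u := range (j + 1))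
            (A := fun i z => p i z * U i z)
            (A' := fun i => deriv (p i) z * U i z + p i z * (k * U (i + 1) z)) (x := z)
            (fun i _ => (((hp1 i z hz).differentiableAt (UH_open.mem_nhds hz)).hasDerivAt).mul (hUd i))
          exact h6
      have hE : (fun z => ev (th^[j] (Tw w β)) (-1 / z)) =ᶠ[nhds z]
          (fun z => hf z * ∑ i ∈ range (j + 1), p i z * U i z) := by
        filter_upwards [UH_open.mem_nhds (show z ∈ UH from hz)] with y hy
        exact hp3 β y hy
      have hfin := (hL.congr_of_eventuallyEq hE.symm).unique hR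
      have hz2 : z ^ 2 ≠ 0 := pow_ne_zero _ h0
      have e4 : ev (th^[j + 1] (Tw w β)) (-1 / z) = k⁻¹ * z ^ 2 * (deriv hf z * ∑ i ∈ range (j + 1), p i z * U i z +
            hf z * ∑ i ∈ range (j + 1), (deriv (p i) z * U i z + p i z * (k * U (i + 1) z))) := by
        rw [← hfin]
        field_simp
      rw [e4]
      have e5 : ∑ i ∈ range (j + 1 + 1), q i z * U i z =
          ∑ i ∈ range (j + 1), k⁻¹ * z ^ 2 * (deriv hf z / hf z * p i z + deriv (p i) z) * U i z +
          ∑ i ∈ range (j + 1), z ^ 2 * p i z * U (i + 1) z := by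
        have e6 : ∀ i, q i z * U i z = (if i ≤ j then k⁻¹ * z ^ 2 * (deriv hf z / hf z * p i z + deriv (p i) z) else 0) * U i z +
          (if i = 0 then 0 else z ^ 2 * p (i - 1) z) * U i z := fun i => by rw [hq]; ring
        simp_rw [e6]
        rw [Finset.sum_add_distrib]
        congr 1
        · rw [Finset.sum_range_succ, if_neg (by omega), zero_mul, add_zero]
          refine Finset.sum_congr rfl fun i hi => ?_
          rw [Finset.mem_range] at hi
          rw [if_pos (by omega)]
        · rw [Finset.sum_range_succ']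
          rw [if_pos rfl, zero_mul, add_zero]
          refine Finset.sum_congr rfl fun i hi => ?_
          rw [if_neg (by omega), Nat.add_sub_cancel]
      rw [show (∑ i ∈ range (j + 1 + 1), q i z * ∑ β' : ZMod 7, z7 (2 * β * β') * ev (th^[i] (Tw (ft4 w) β')) z) =
        ∑ i ∈ range (j + 1 + 1), q i z * U i z from rfl, e5]
      have hfn := hf_ne hz
      rw [mul_add, mul_add]
      have e7 : k⁻¹ * z ^ 2 * (deriv hf z * ∑ i ∈ range (j + 1), p i z * U i z) =
          hf z * ∑ i ∈ range (j + 1), k⁻¹ * z ^ 2 * (deriv hf z / hf z * p i z) * U i z := by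
        rw [Finset.mul_sum, Finset.mul_sum, Finset.mul_sum]
        refine Finset.sum_congr rfl fun i _ => ?_
        field_simp
      have e8 : k⁻¹ * z ^ 2 * (hf z * ∑ i ∈ range (j + 1), (deriv (p i) z * U i z + p i z * (k * U (i + 1) z))) =
          hf z * (∑ i ∈ range (j + 1), k⁻¹ * z ^ 2 * deriv (p i) z * U i z +
            ∑ i ∈ range (j + 1), z ^ 2 * p i z * U (i + 1) z) := by
        rw [← Finset.sum_add_distrib, Finset.mul_sum, Finset.mul_sum, Finset.mul_sum]
        refine Finset.sum_congr rfl fun i _ => ?_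
        field_simp
      rw [e7, e8, mul_add, ← add_assoc, ← mul_add, ← Finset.sum_add_distrib]
      congr 2
      refine Finset.sum_congr rfl fun i _ => ?_
      ring

end

end Pool.Agent.NH79.QS
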